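import Mathlib

/-!
# MP_509871_co: a regular CIS graph with all the listed properties that is not vertex-transitive

`G = R[R[R] ⊎ K₃[2R]]` with `R = K₃ □ K₃` (1215 vertices).
-/

namespace Pool.Agent.Results.MP_509871_co.RegularCISNotTransitive

open SimpleGraph Set

/-- Every maximal clique meets every maximal stable set. -/
def CIS {V : Type*} (G : SimpleGraph V) : Prop :=
  ∀ C S : Set V, Maximal G.IsClique C → Maximal G.IsIndepSet S → (C ∩ S).Nonempty

/-- All maximal stable sets have the same size. -/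
def WellCovered {V : Type*} (G : SimpleGraph V) : Prop :=
  ∀ S T : Set V, Maximal G.IsIndepSet S → Maximal G.IsIndepSet T → S.ncard = T.ncard

/-- Distinct vertices have distinct neighbourhoods. -/
def Irreducible {V : Type*} (G : SimpleGraph V) : Prop :=
  ∀ u v : V, u ≠ v → G.neighborSet u ≠ G.neighborSet v

/-- For all `u, v` some automorphism maps `u` to `v`. -/
def VertexTransitive {V : Type*} (G : SimpleGraph V) : Prop :=
  ∀ u v : V, ∃ φ : G ≃g G, φ u = v

/-- All vertices have the same degree. -/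
def Regular {V : Type*} (G : SimpleGraph V) : Prop :=
  ∃ d : ℕ, ∀ v : V, (G.neighborSet v).ncard = d

variable {V W : Type} 

/-- lexicographic product -/
def lex (G : SimpleGraph V) (H : SimpleGraph W) : SimpleGraph (V × W) where
  Adj x y := G.Adj x.1 y.1 ∨ (x.1 = y.1 ∧ H.Adj x.2 y.2)
  symm := ⟨by
    rintro x y (h | ⟨h, h'⟩)
    · exact Or.inl h.symm
    · exact Or.inr ⟨h.symm, h'.symm⟩⟩
  loopless := ⟨by
    rintro x (h | ⟨_, h⟩)
    · exact G.irrefl h
    · exact H.irrefl h⟩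

lemma lex_adj (G : SimpleGraph V) (H : SimpleGraph W) (x y : V × W) :
    (lex G H).Adj x y ↔ G.Adj x.1 y.1 ∨ (x.1 = y.1 ∧ H.Adj x.2 y.2) := Iff.rfl

lemma lex_compl (G : SimpleGraph V) (H : SimpleGraph W) : (lex G H)ᶜ = lex Gᶜ Hᶜ := by
  ext ⟨a, b⟩ ⟨c, d⟩
  simp only [compl_adj, lex_adj, ne_eq, Prod.mk.injEq, not_and, not_or]
  constructor
  · rintro ⟨h1, h2, h3⟩
    by_cases hac : a = c
    · exact Or.inr ⟨hac, h1 hac, h3 hac⟩
    · exact Or.inl ⟨hac, h2⟩
  · rintro (⟨h1, h2⟩ | ⟨h1, h2, h3⟩)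
    · exact ⟨fun h => absurd h h1, h2, fun h => absurd h h1⟩
    · subst h1
      exact ⟨fun _ => h2, G.irrefl, fun _ => h3⟩

/-- uniform CIS -/
structure UC (G : SimpleGraph V) (k a : ℕ) : Prop where
  cl : ∀ C : Set V, Maximal G.IsClique C → C.ncard = k
  st : ∀ S : Set V, Maximal G.IsIndepSet S → S.ncard = a
  cis : ∀ C S : Set V, Maximal G.IsClique C → Maximal G.IsIndepSet S → (C ∩ S).Nonempty

structure Irr (G : SimpleGraph V) : Prop where
  irr : ∀ u v : V, u ≠ v → G.neighborSet u ≠ G.neighborSet v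
  irrc : ∀ u v : V, u ≠ v → Gᶜ.neighborSet u ≠ Gᶜ.neighborSet v
  iso : ∀ v, ∃ w, G.Adj v w
  isoc : ∀ v, ∃ w, Gᶜ.Adj v w

lemma max_compl_clique (G : SimpleGraph V) : Maximal Gᶜ.IsClique = Maximal G.IsIndepSet := by
  have : Gᶜ.IsClique = G.IsIndepSet := by
    funext S
    exact propext (isClique_compl G)
  rw [this]

lemma max_compl_indep (G : SimpleGraph V) : Maximal Gᶜ.IsIndepSet = Maximal G.IsClique := by
  have : Gᶜ.IsIndepSet = G.IsClique := by
    funext S
    exact propext (isIndepSet_compl G)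
  rw [this]

lemma max_clique_nonempty [Nonempty V] (G : SimpleGraph V) {C : Set V}
    (hC : Maximal G.IsClique C) : C.Nonempty := by
  by_contra h
  rw [not_nonempty_iff_eq_empty] at h
  obtain ⟨v⟩ := ‹Nonempty V›
  have h1 : G.IsClique {v} := by simp
  have h2 := hC.2 h1 (by simp [h])
  rw [h] at h2
  exact (h2 (mem_singleton v)).elim

/-- maximal cliques of a lexicographic product -/
lemma lex_max [Nonempty W] (G : SimpleGraph V) (H : SimpleGraph W) {C : Set (V × W)}
    (hC : Maximal (lex G H).IsClique C) :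
    Maximal G.IsClique (Prod.fst '' C) ∧
      ∀ p ∈ Prod.fst '' C, Maximal H.IsClique {w | (p, w) ∈ C} := by
  have hcl := hC.1
  constructor
  · refine ⟨?_, ?_⟩
    · rintro _ ⟨x, hx, rfl⟩ _ ⟨y, hy, rfl⟩ hxy
      rcases hcl hx hy (fun h => hxy (by rw [h])) with h | ⟨h, _⟩
      · exact h
      · exact absurd h hxy
    · intro D hD hCD v hv
      by_contra hvC
      obtain ⟨w⟩ := ‹Nonempty W›
      have h1 : (lex G H).IsClique (insert (v, w) C) := by
        rw [isClique_insert]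
        refine ⟨hcl, ?_⟩
        intro b hb _
        have hb1 : b.1 ∈ Prod.fst '' C := ⟨b, hb, rfl⟩
        have hne : v ≠ b.1 := fun h => hvC (h ▸ hb1)
        exact Or.inl (hD hv (hCD hb1) hne)
      have h2 := hC.2 h1 (subset_insert _ _) (mem_insert _ _)
      exact hvC ⟨_, h2, rfl⟩
  · rintro p ⟨⟨p', w0⟩, hw0, hp⟩
    simp only at hp
    subst hp
    refine ⟨?_, ?_⟩
    · intro a ha b hb hab
      rcases hcl ha hb (fun h => hab (Prod.mk.inj h).2) with h | ⟨_, h⟩
      · exact absurd h G.irrefl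
      · exact h
    · intro D hD hCD w hw
      have h1 : (lex G H).IsClique (insert (p', w) C) := by
        rw [isClique_insert]
        refine ⟨hcl, ?_⟩
        rintro ⟨a, b⟩ hb hne
        by_cases hpa : p' = a
        · subst hpa
          exact Or.inr ⟨rfl, hD hw (hCD hb) (fun h => hne (by rw [h]))⟩
        · rcases hcl hw0 hb (fun h => hpa (Prod.mk.inj h).1) with h | ⟨h, _⟩
          · exact Or.inl h
          · exact absurd h hpa
      exact hC.2 h1 (subset_insert _ _) (mem_insert _ _)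

lemma ncard_fibre [Finite V] [Finite W] (C : Set (V × W)) (P : Set V) (l : ℕ)
    (hP : ∀ x ∈ C, x.1 ∈ P) (h : ∀ p ∈ P, {w | (p, w) ∈ C}.ncard = l) :
    C.ncard = P.ncard * l := by
  classical
  have hCf : C.Finite := toFinite C
  have hPf : P.Finite := toFinite P
  rw [ncard_eq_toFinset_card C hCf, ncard_eq_toFinset_card P hPf]
  have := Finset.card_eq_sum_card_fiberwise (s := hCf.toFinset) (t := hPf.toFinset)
    (f := Prod.fst) (by
      intro x hx
      simp only [Finite.coe_toFinset] at hx ⊢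
      exact hP x hx)
  rw [this, Finset.sum_const_nat]
  intro p hp
  rw [Finite.mem_toFinset] at hp
  rw [← h p hp, ncard_eq_toFinset_card _ (toFinite _)]
  refine Finset.card_bij (fun x _ => x.2) ?_ ?_ ?_
  · rintro ⟨a, b⟩ hx
    simp only [Finset.mem_filter, Finite.mem_toFinset] at hx ⊢
    obtain ⟨h1, rfl⟩ := hx
    exact h1
  · rintro ⟨a, b⟩ h1 ⟨c, d⟩ h2 h3
    simp only [Finset.mem_filter, Finite.mem_toFinset] at h1 h2 h3
    rw [h1.2, h2.2, h3]
  · intro b hb
    simp only [Finite.mem_toFinset] at hb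
    exact ⟨(p, b), by simpa using hb, rfl⟩

lemma UC.compl {G : SimpleGraph V} {k a : ℕ} (h : UC G k a) : UC Gᶜ a k := by
  refine ⟨?_, ?_, ?_⟩
  · intro C hC
    rw [max_compl_clique] at hC
    exact h.st C hC
  · intro C hC
    rw [max_compl_indep] at hC
    exact h.cl C hC
  · intro C S hC hS
    rw [max_compl_clique] at hC
    rw [max_compl_indep] at hS
    rw [inter_comm]
    exact h.cis S C hS hC

lemma lex_cl [Finite V] [Finite W] [Nonempty W] {G : SimpleGraph V} {H : SimpleGraph W}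
    {k l : ℕ} (hG : ∀ C : Set V, Maximal G.IsClique C → C.ncard = k)
    (hH : ∀ C : Set W, Maximal H.IsClique C → C.ncard = l) (C : Set (V × W))
    (hC : Maximal (lex G H).IsClique C) : C.ncard = k * l := by
  obtain ⟨h1, h2⟩ := lex_max G H hC
  rw [ncard_fibre C (Prod.fst '' C) l (fun x hx => ⟨x, hx, rfl⟩) (fun p hp => hH _ (h2 p hp)),
    hG _ h1]

lemma UC.lex [Finite V] [Finite W] [Nonempty W] {G : SimpleGraph V} {H : SimpleGraph W}
    {k a l b : ℕ} (hG : UC G k a) (hH : UC H l b) : UC (lex G H) (k * l) (a * b) := by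
  refine ⟨lex_cl hG.cl hH.cl, ?_, ?_⟩
  · intro S hS
    rw [← max_compl_clique, lex_compl] at hS
    exact lex_cl hG.compl.cl hH.compl.cl S hS
  · intro C S hC hS
    rw [← max_compl_clique, lex_compl] at hS
    obtain ⟨h1, h2⟩ := lex_max G H hC
    obtain ⟨h3, h4⟩ := lex_max Gᶜ Hᶜ hS
    rw [max_compl_clique] at h3
    obtain ⟨p, hp1, hp2⟩ := hG.cis _ _ h1 h3
    have h5 := h4 p hp2
    rw [max_compl_clique] at h5
    obtain ⟨w, hw1, hw2⟩ := hH.cis _ _ (h2 p hp1) h5
    exact ⟨(p, w), hw1, hw2⟩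

lemma lex_irr (G : SimpleGraph V) (H : SimpleGraph W)
    (hH : ∀ u v : W, u ≠ v → H.neighborSet u ≠ H.neighborSet v) (hi : ∀ v, ∃ w, H.Adj v w)
    (u v : V × W) (huv : u ≠ v) : (lex G H).neighborSet u ≠ (lex G H).neighborSet v := by
  intro he
  obtain ⟨a, b⟩ := u
  obtain ⟨c, d⟩ := v
  by_cases hac : a = c
  · subst hac
    have hbd : b ≠ d := fun h => huv (by rw [h])
    refine hH b d hbd ?_
    ext w
    have := congrArg (fun S => (a, w) ∈ S) he
    simpa [lex_adj, mem_neighborSet] using this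
  · obtain ⟨w, hw⟩ := hi b
    have h1 : (a, w) ∈ (lex G H).neighborSet (a, b) := Or.inr ⟨rfl, hw⟩
    rw [he] at h1
    rcases h1 with h1 | ⟨h1, _⟩
    · have h2 : (a, b) ∈ (lex G H).neighborSet (c, d) := Or.inl h1
      rw [← he] at h2
      exact (lex G H).irrefl h2
    · exact hac h1.symm

lemma Irr.compl {G : SimpleGraph V} (h : Irr G) : Irr Gᶜ := by
  refine ⟨h.irrc, ?_, h.isoc, ?_⟩
  · rw [compl_compl]; exact h.irr
  · rw [compl_compl]; exact h.iso

lemma Irr.lex (G : SimpleGraph V) {H : SimpleGraph W} (hH : Irr H) : Irr (lex G H) := by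
  refine ⟨lex_irr G H hH.irr hH.iso, ?_, ?_, ?_⟩
  · rw [lex_compl]
    exact lex_irr Gᶜ Hᶜ hH.irrc hH.isoc
  · rintro ⟨a, b⟩
    obtain ⟨w, hw⟩ := hH.iso b
    exact ⟨(a, w), Or.inr ⟨rfl, hw⟩⟩
  · rintro ⟨a, b⟩
    rw [lex_compl]
    obtain ⟨w, hw⟩ := hH.isoc b
    exact ⟨(a, w), Or.inr ⟨rfl, hw⟩⟩

/-- maximal cliques of a disjoint union -/
lemma sum_max_clique [Nonempty V] (G : SimpleGraph V) (H : SimpleGraph W) {C : Set (V ⊕ W)}
    (hC : Maximal (G ⊕g H).IsClique C) :
    (∃ D, Maximal G.IsClique D ∧ C = Sum.inl '' D) ∨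
      (∃ D, Maximal H.IsClique D ∧ C = Sum.inr '' D) := by
  have hcl := hC.1
  have hne : C.Nonempty := max_clique_nonempty _ hC
  obtain ⟨x, hx⟩ := hne
  rcases x with v | w
  · left
    have hsub : ∀ y ∈ C, ∃ u, y = Sum.inl u := by
      intro y hy
      rcases y with u | w
      · exact ⟨u, rfl⟩
      · have := hcl hx hy (by simp)
        simp at this
    have hCe : C = Sum.inl '' {u | Sum.inl u ∈ C} := by
      ext y
      constructor
      · intro hy
        obtain ⟨u, rfl⟩ := hsub y hy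
        exact ⟨u, hy, rfl⟩
      · rintro ⟨u, hu, rfl⟩
        exact hu
    refine ⟨{u | Sum.inl u ∈ C}, ⟨?_, ?_⟩, hCe⟩
    · intro a ha b hb hab
      have := hcl ha hb (fun h => hab (Sum.inl.inj h))
      simpa using this
    · intro D hD hCD u hu
      have h1 : (G ⊕g H).IsClique (Sum.inl '' D) := by
        rintro _ ⟨a, ha, rfl⟩ _ ⟨b, hb, rfl⟩ hab
        simpa using hD ha hb (fun h => hab (by rw [h]))
      refine hC.2 h1 ?_ ⟨u, hu, rfl⟩
      rw [hCe]
      exact image_mono hCD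
  · right
    have hsub : ∀ y ∈ C, ∃ u, y = Sum.inr u := by
      intro y hy
      rcases y with u | w
      · have := hcl hx hy (by simp)
        simp at this
      · exact ⟨w, rfl⟩
    have hCe : C = Sum.inr '' {u | Sum.inr u ∈ C} := by
      ext y
      constructor
      · intro hy
        obtain ⟨u, rfl⟩ := hsub y hy
        exact ⟨u, hy, rfl⟩
      · rintro ⟨u, hu, rfl⟩
        exact hu
    refine ⟨{u | Sum.inr u ∈ C}, ⟨?_, ?_⟩, hCe⟩
    · intro a ha b hb hab
      have := hcl ha hb (fun h => hab (Sum.inr.inj h))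
      simpa using this
    · intro D hD hCD u hu
      have h1 : (G ⊕g H).IsClique (Sum.inr '' D) := by
        rintro _ ⟨a, ha, rfl⟩ _ ⟨b, hb, rfl⟩ hab
        simpa using hD ha hb (fun h => hab (by rw [h]))
      refine hC.2 h1 ?_ ⟨u, hu, rfl⟩
      rw [hCe]
      exact image_mono hCD

lemma sum_max_indep (G : SimpleGraph V) (H : SimpleGraph W) {S : Set (V ⊕ W)}
    (hS : Maximal (G ⊕g H).IsIndepSet S) :
    Maximal G.IsIndepSet {u | Sum.inl u ∈ S} ∧ Maximal H.IsIndepSet {u | Sum.inr u ∈ S} := by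
  have hcl := hS.1
  constructor
  · refine ⟨?_, ?_⟩
    · intro a ha b hb hab
      have := hcl ha hb (fun h => hab (Sum.inl.inj h))
      simpa using this
    · intro D hD hSD u hu
      have h1 : (G ⊕g H).IsIndepSet (S ∪ Sum.inl '' D) := by
        intro x hx y hy hxy
        have hx' : x ∈ Sum.inl '' D ∨ (x ∈ S ∧ ∃ w, x = Sum.inr w) := by
          rcases x with x | x
          · left
            rcases hx with hx | hx
            · exact ⟨x, hSD hx, rfl⟩
            · exact hx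
          · right
            rcases hx with hx | ⟨_, _, hx⟩
            · exact ⟨hx, x, rfl⟩
            · cases hx
        have hy' : y ∈ Sum.inl '' D ∨ (y ∈ S ∧ ∃ w, y = Sum.inr w) := by
          rcases y with y | y
          · left
            rcases hy with hy | hy
            · exact ⟨y, hSD hy, rfl⟩
            · exact hy
          · right
            rcases hy with hy | ⟨_, _, hy⟩
            · exact ⟨hy, y, rfl⟩
            · cases hy
        rcases hx' with ⟨a, ha, rfl⟩ | ⟨hx', w, rfl⟩ <;> rcases hy' with ⟨b, hb, rfl⟩ | ⟨hy', w', rfl⟩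
        · simpa using hD ha hb (fun h => hxy (by rw [h]))
        · simp
        · simp
        · exact hcl hx' hy' hxy
      exact hS.2 h1 subset_union_left (Or.inr ⟨u, hu, rfl⟩)
  · refine ⟨?_, ?_⟩
    · intro a ha b hb hab
      have := hcl ha hb (fun h => hab (Sum.inr.inj h))
      simpa using this
    · intro D hD hSD u hu
      have h1 : (G ⊕g H).IsIndepSet (S ∪ Sum.inr '' D) := by
        intro x hx y hy hxy
        have hx' : x ∈ Sum.inr '' D ∨ (x ∈ S ∧ ∃ w, x = Sum.inl w) := by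
          rcases x with x | x
          · right
            rcases hx with hx | ⟨_, _, hx⟩
            · exact ⟨hx, x, rfl⟩
            · cases hx
          · left
            rcases hx with hx | hx
            · exact ⟨x, hSD hx, rfl⟩
            · exact hx
        have hy' : y ∈ Sum.inr '' D ∨ (y ∈ S ∧ ∃ w, y = Sum.inl w) := by
          rcases y with y | y
          · right
            rcases hy with hy | ⟨_, _, hy⟩
            · exact ⟨hy, y, rfl⟩
            · cases hy
          · left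
            rcases hy with hy | hy
            · exact ⟨y, hSD hy, rfl⟩
            · exact hy
        rcases hx' with ⟨a, ha, rfl⟩ | ⟨hx', w, rfl⟩ <;> rcases hy' with ⟨b, hb, rfl⟩ | ⟨hy', w', rfl⟩
        · simpa using hD ha hb (fun h => hxy (by rw [h]))
        · simp
        · simp
        · exact hcl hx' hy' hxy
      exact hS.2 h1 subset_union_left (Or.inr ⟨u, hu, rfl⟩)

lemma UC.sum [Finite V] [Finite W] [Nonempty V] {G : SimpleGraph V} {H : SimpleGraph W}
    {k a b : ℕ} (hG : UC G k a) (hH : UC H k b) : UC (G ⊕g H) k (a + b) := by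
  refine ⟨?_, ?_, ?_⟩
  · intro C hC
    rcases sum_max_clique G H hC with ⟨D, hD, rfl⟩ | ⟨D, hD, rfl⟩
    · rw [ncard_image_of_injective _ Sum.inl_injective]
      exact hG.cl D hD
    · rw [ncard_image_of_injective _ Sum.inr_injective]
      exact hH.cl D hD
  · intro S hS
    obtain ⟨h1, h2⟩ := sum_max_indep G H hS
    have he : S = Sum.inl '' {u | Sum.inl u ∈ S} ∪ Sum.inr '' {u | Sum.inr u ∈ S} := by
      ext x
      rcases x with x | x <;> simp
    rw [he, ncard_union_eq ?_ (toFinite _) (toFinite _),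
      ncard_image_of_injective _ Sum.inl_injective, ncard_image_of_injective _ Sum.inr_injective,
      hG.st _ h1, hH.st _ h2]
    rw [Set.disjoint_left]
    rintro _ ⟨a, _, rfl⟩ ⟨b, _, hb⟩
    cases hb
  · intro C S hC hS
    obtain ⟨h1, h2⟩ := sum_max_indep G H hS
    rcases sum_max_clique G H hC with ⟨D, hD, rfl⟩ | ⟨D, hD, rfl⟩
    · obtain ⟨x, hx1, hx2⟩ := hG.cis _ _ hD h1
      exact ⟨Sum.inl x, ⟨x, hx1, rfl⟩, hx2⟩
    · obtain ⟨x, hx1, hx2⟩ := hH.cis _ _ hD h2
      exact ⟨Sum.inr x, ⟨x, hx1, rfl⟩, hx2⟩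

lemma Irr.sum [Nonempty V] [Nonempty W] {G : SimpleGraph V} {H : SimpleGraph W}
    (hG : Irr G) (hH : Irr H) : Irr (G ⊕g H) := by
  refine ⟨?_, ?_, ?_, ?_⟩
  · rintro (u | u) (v | v) huv he
    · refine hG.irr u v (fun h => huv (by rw [h])) ?_
      ext w
      have := congrArg (fun S => Sum.inl w ∈ S) he
      simpa [mem_neighborSet] using this
    · obtain ⟨w, hw⟩ := hG.iso u
      have h1 : Sum.inl w ∈ (G ⊕g H).neighborSet (Sum.inl u) := by
        rw [mem_neighborSet]; simpa using hw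
      rw [he] at h1
      simp [mem_neighborSet] at h1
    · obtain ⟨w, hw⟩ := hG.iso v
      have h1 : Sum.inl w ∈ (G ⊕g H).neighborSet (Sum.inl v) := by
        rw [mem_neighborSet]; simpa using hw
      rw [← he] at h1
      simp [mem_neighborSet] at h1
    · refine hH.irr u v (fun h => huv (by rw [h])) ?_
      ext w
      have := congrArg (fun S => Sum.inr w ∈ S) he
      simpa [mem_neighborSet] using this
  · rintro (u | u) (v | v) huv he
    · refine hG.irrc u v (fun h => huv (by rw [h])) ?_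
      ext w
      have := congrArg (fun S => Sum.inl w ∈ S) he
      simpa [mem_neighborSet, compl_adj] using this
    · obtain ⟨w, hw⟩ := hG.iso u
      have h1 : Sum.inl w ∈ (G ⊕g H)ᶜ.neighborSet (Sum.inr v) := by
        rw [mem_neighborSet, compl_adj]; simp
      rw [← he, mem_neighborSet, compl_adj] at h1
      simp [hw] at h1
    · obtain ⟨w, hw⟩ := hG.iso v
      have h1 : Sum.inl w ∈ (G ⊕g H)ᶜ.neighborSet (Sum.inr u) := by
        rw [mem_neighborSet, compl_adj]; simp
      rw [he, mem_neighborSet, compl_adj] at h1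
      simp [hw] at h1
    · refine hH.irrc u v (fun h => huv (by rw [h])) ?_
      ext w
      have := congrArg (fun S => Sum.inr w ∈ S) he
      simpa [mem_neighborSet, compl_adj] using this
  · rintro (u | u)
    · obtain ⟨w, hw⟩ := hG.iso u
      exact ⟨Sum.inl w, by simpa using hw⟩
    · obtain ⟨w, hw⟩ := hH.iso u
      exact ⟨Sum.inr w, by simpa using hw⟩
  · obtain ⟨v⟩ := ‹Nonempty V›
    obtain ⟨w⟩ := ‹Nonempty W›
    rintro (u | u)
    · exact ⟨Sum.inr w, by rw [compl_adj]; simp⟩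
    · exact ⟨Sum.inl v, by rw [compl_adj]; simp⟩

/-- regularity -/
def Reg (G : SimpleGraph V) (d : ℕ) : Prop := ∀ v, (G.neighborSet v).ncard = d

lemma Reg.lex [Finite V] [Finite W] {G : SimpleGraph V} {H : SimpleGraph W} {d e : ℕ}
    (hG : Reg G d) (hH : Reg H e) : Reg (lex G H) (d * Nat.card W + e) := by
  rintro ⟨a, b⟩
  have he : (RegularCISNotTransitive.lex G H).neighborSet (a, b) =
      (G.neighborSet a) ×ˢ (univ : Set W) ∪ (Prod.mk a) '' (H.neighborSet b) := by
    ext ⟨x, y⟩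
    simp only [mem_neighborSet, lex_adj, mem_union, mem_prod, mem_univ, and_true, mem_image,
      Prod.mk.injEq]
    constructor
    · rintro (h | ⟨h, h'⟩)
      · exact Or.inl h
      · exact Or.inr ⟨y, h', h, rfl⟩
    · rintro (h | ⟨z, h, h', rfl⟩)
      · exact Or.inl h
      · exact Or.inr ⟨h', h⟩
  rw [he, ncard_union_eq ?_ (toFinite _) (toFinite _), ncard_prod, ncard_univ, hG a,
    ncard_image_of_injective _ (fun x y h => (Prod.mk.inj h).2), hH b]
  rw [Set.disjoint_left]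
  rintro ⟨x, y⟩ ⟨h1, _⟩ ⟨z, _, hz⟩
  rw [Prod.mk.injEq] at hz
  rw [← hz.1] at h1
  exact G.irrefl h1

lemma Reg.sum {G : SimpleGraph V} {H : SimpleGraph W} {d : ℕ}
    (hG : Reg G d) (hH : Reg H d) : Reg (G ⊕g H) d := by
  rintro (u | u)
  · have : (G ⊕g H).neighborSet (Sum.inl u) = Sum.inl '' (G.neighborSet u) := by
      ext x
      rcases x with x | x <;> simp [mem_neighborSet]
    rw [this, ncard_image_of_injective _ Sum.inl_injective]
    exact hG u
  · have : (G ⊕g H).neighborSet (Sum.inr u) = Sum.inr '' (H.neighborSet u) := by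
      ext x
      rcases x with x | x <;> simp [mem_neighborSet]
    rw [this, ncard_image_of_injective _ Sum.inr_injective]
    exact hH u

/-- the rook's graph `K₃ □ K₃` -/
def R : SimpleGraph (Fin 3 × Fin 3) where
  Adj x y := x ≠ y ∧ (x.1 = y.1 ∨ x.2 = y.2)
  symm := ⟨fun _ _ h => ⟨h.1.symm, h.2.imp Eq.symm Eq.symm⟩⟩
  loopless := ⟨fun _ h => h.1 rfl⟩

instance : DecidableRel R.Adj := fun x y =>
  inferInstanceAs (Decidable (x ≠ y ∧ (x.1 = y.1 ∨ x.2 = y.2)))


/-- lines of the grid -/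
def lineL : List (Finset (Fin 3 × Fin 3)) :=
  [{(0,0),(0,1),(0,2)}, {(1,0),(1,1),(1,2)}, {(2,0),(2,1),(2,2)},
   {(0,0),(1,0),(2,0)}, {(0,1),(1,1),(2,1)}, {(0,2),(1,2),(2,2)}]

/-- permutations -/
def permL : List (Finset (Fin 3 × Fin 3)) :=
  [{(0,0),(1,1),(2,2)}, {(0,0),(1,2),(2,1)}, {(0,1),(1,0),(2,2)},
   {(0,1),(1,2),(2,0)}, {(0,2),(1,0),(2,1)}, {(0,2),(1,1),(2,0)}]

def cl1 (F : Finset (Fin 3 × Fin 3)) : Prop := ∀ x ∈ F, ∀ y ∈ F, x ≠ y → R.Adj x y
instance : DecidablePred cl1 := fun F => by unfold cl1; infer_instance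
def mx1 (F : Finset (Fin 3 × Fin 3)) : Prop := ∀ v, v ∉ F → ∃ x ∈ F, ¬ R.Adj v x
instance : DecidablePred mx1 := fun F => by unfold mx1; infer_instance
def cl2 (F : Finset (Fin 3 × Fin 3)) : Prop := ∀ x ∈ F, ∀ y ∈ F, x ≠ y → ¬ R.Adj x y
instance : DecidablePred cl2 := fun F => by unfold cl2; infer_instance
def mx2 (F : Finset (Fin 3 × Fin 3)) : Prop := ∀ v, v ∉ F → ∃ x ∈ F, R.Adj v x
instance : DecidablePred mx2 := fun F => by unfold mx2; infer_instance

lemma R_fin_cl : ∀ F : Finset (Fin 3 × Fin 3), cl1 F → mx1 F → F ∈ lineL := by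
  decide +kernel

lemma R_fin_st : ∀ F : Finset (Fin 3 × Fin 3), cl2 F → mx2 F → F ∈ permL := by
  decide +kernel

lemma R_cl (C : Set (Fin 3 × Fin 3)) (hC : Maximal R.IsClique C) :
    ∃ F ∈ lineL, C = (F : Set (Fin 3 × Fin 3)) := by
  classical
  refine ⟨C.toFinset, R_fin_cl _ ?_ ?_, by simp⟩
  · intro x hx y hy hxy
    rw [mem_toFinset] at hx hy
    exact hC.1 hx hy hxy
  · intro v hv
    rw [mem_toFinset] at hv
    by_contra hcon
    push Not at hcon
    have h1 : R.IsClique (insert v C) := by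
      rw [isClique_insert]
      exact ⟨hC.1, fun b hb _ => hcon b (mem_toFinset.2 hb)⟩
    exact hv (hC.2 h1 (subset_insert _ _) (mem_insert _ _))

lemma R_st (C : Set (Fin 3 × Fin 3)) (hC : Maximal R.IsIndepSet C) :
    ∃ F ∈ permL, C = (F : Set (Fin 3 × Fin 3)) := by
  classical
  refine ⟨C.toFinset, R_fin_st _ ?_ ?_, by simp⟩
  · intro x hx y hy hxy
    rw [mem_toFinset] at hx hy
    exact hC.1 hx hy hxy
  · intro v hv
    rw [mem_toFinset] at hv
    by_contra hcon
    push Not at hcon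
    have h1 : R.IsIndepSet (insert v C) := by
      rw [← isClique_compl, isClique_insert, isClique_compl]
      refine ⟨hC.1, fun b hb hne => ?_⟩
      rw [compl_adj]
      exact ⟨hne, hcon b (mem_toFinset.2 hb)⟩
    exact hv (hC.2 h1 (subset_insert _ _) (mem_insert _ _))

lemma R_UC : UC R 3 3 := by
  refine ⟨?_, ?_, ?_⟩
  · intro C hC
    obtain ⟨F, hF, rfl⟩ := R_cl C hC
    rw [ncard_coe_finset]
    have : ∀ F ∈ lineL, F.card = 3 := by decide +kernel
    exact this F hF
  · intro C hC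
    obtain ⟨F, hF, rfl⟩ := R_st C hC
    rw [ncard_coe_finset]
    have : ∀ F ∈ permL, F.card = 3 := by decide +kernel
    exact this F hF
  · intro C S hC hS
    obtain ⟨F, hF, rfl⟩ := R_cl C hC
    obtain ⟨F', hF', rfl⟩ := R_st S hS
    rw [← Finset.coe_inter, Finset.coe_nonempty]
    have : ∀ F ∈ lineL, ∀ F' ∈ permL, (F ∩ F').Nonempty := by decide +kernel
    exact this F hF F' hF'

lemma R_irr1 : ∀ u v : Fin 3 × Fin 3, u ≠ v → ∃ w, ¬ (R.Adj u w ↔ R.Adj v w) := by
  decide

lemma R_irr2 : ∀ u v : Fin 3 × Fin 3, u ≠ v →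
    ∃ w, ¬ ((u ≠ w ∧ ¬ R.Adj u w) ↔ (v ≠ w ∧ ¬ R.Adj v w)) := by
  decide

lemma R_Irr : Irr R := by
  refine ⟨?_, ?_, by decide, ?_⟩
  · intro u v huv he
    obtain ⟨w, hw⟩ := R_irr1 u v huv
    have := congrArg (fun S => w ∈ S) he
    simp only [mem_neighborSet, eq_iff_iff] at this
    exact hw this
  · intro u v huv he
    obtain ⟨w, hw⟩ := R_irr2 u v huv
    have := congrArg (fun S => w ∈ S) he
    simp only [mem_neighborSet, eq_iff_iff, compl_adj] at this
    exact hw this
  · have : ∀ v : Fin 3 × Fin 3, ∃ w, v ≠ w ∧ ¬ R.Adj v w := by decide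
    intro v
    obtain ⟨w, hw⟩ := this v
    exact ⟨w, by rw [compl_adj]; exact hw⟩

lemma R_Reg : Reg R 4 := by
  intro v
  have h : R.neighborSet v = ((Finset.univ.filter (fun w => R.Adj v w) :
      Finset (Fin 3 × Fin 3)) : Set (Fin 3 × Fin 3)) := by
    ext w; simp
  rw [h, ncard_coe_finset]
  clear h
  revert v
  decide

lemma top_UC : UC (⊤ : SimpleGraph (Fin 3)) 3 1 := by
  have hst : ∀ S : Set (Fin 3), Maximal (⊤ : SimpleGraph (Fin 3)).IsIndepSet S →
      ∃ x, S = {x} := by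
    intro S hS
    have hne : S.Nonempty := by
      rw [← max_compl_clique] at hS
      exact max_clique_nonempty _ hS
    obtain ⟨x, hx⟩ := hne
    refine ⟨x, ?_⟩
    ext y
    constructor
    · intro hy
      by_contra hxy
      exact hS.1 hy hx hxy (by simpa using hxy)
    · rintro rfl
      exact hx
  have hcl : ∀ C : Set (Fin 3), Maximal (⊤ : SimpleGraph (Fin 3)).IsClique C → C = univ := by
    intro C hC
    have h1 : (⊤ : SimpleGraph (Fin 3)).IsClique univ := by
      intro a _ b _ hab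
      simpa using hab
    exact eq_univ_of_univ_subset (hC.2 h1 (subset_univ _))
  refine ⟨?_, ?_, ?_⟩
  · intro C hC
    rw [hcl C hC, ncard_univ]
    simp
  · intro S hS
    obtain ⟨x, rfl⟩ := hst S hS
    simp
  · intro C S hC hS
    obtain ⟨x, rfl⟩ := hst S hS
    rw [hcl C hC]
    simp

lemma bot_UC : UC (⊥ : SimpleGraph (Fin 2)) 1 2 := by
  have hcl : ∀ S : Set (Fin 2), Maximal (⊥ : SimpleGraph (Fin 2)).IsClique S →
      ∃ x, S = {x} := by
    intro S hS
    obtain ⟨x, hx⟩ := max_clique_nonempty _ hS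
    refine ⟨x, ?_⟩
    ext y
    constructor
    · intro hy
      by_contra hxy
      have := hS.1 hy hx hxy
      simp at this
    · rintro rfl
      exact hx
  have hst : ∀ C : Set (Fin 2), Maximal (⊥ : SimpleGraph (Fin 2)).IsIndepSet C → C = univ := by
    intro C hC
    have h1 : (⊥ : SimpleGraph (Fin 2)).IsIndepSet univ := by
      intro a _ b _ _
      simp
    exact eq_univ_of_univ_subset (hC.2 h1 (subset_univ _))
  refine ⟨?_, ?_, ?_⟩
  · intro S hS
    obtain ⟨x, rfl⟩ := hcl S hS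
    simp
  · intro C hC
    rw [hst C hC, ncard_univ]
    simp
  · intro C S hC hS
    obtain ⟨x, rfl⟩ := hcl C hC
    rw [hst S hS]
    simp

lemma top_Reg : Reg (⊤ : SimpleGraph (Fin 3)) 2 := by
  intro v
  have h : (⊤ : SimpleGraph (Fin 3)).neighborSet v = ((Finset.univ.filter (fun w => v ≠ w) :
      Finset (Fin 3)) : Set (Fin 3)) := by
    ext w; simp [eq_comm]
  rw [h, ncard_coe_finset]
  clear h
  revert v
  decide

lemma bot_Reg : Reg (⊥ : SimpleGraph (Fin 2)) 0 := by
  intro v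
  have h : (⊥ : SimpleGraph (Fin 2)).neighborSet v = ∅ := by
    ext w; simp
  rw [h, ncard_empty]

abbrev VA := (Fin 3 × Fin 3) × (Fin 3 × Fin 3)
abbrev VB := Fin 3 × (Fin 2 × (Fin 3 × Fin 3))
abbrev VG := (Fin 3 × Fin 3) × (VA ⊕ VB)

def GA : SimpleGraph VA := lex R R
def GB : SimpleGraph VB := lex ⊤ (lex ⊥ R)
def GH : SimpleGraph (VA ⊕ VB) := GA ⊕g GB
def G : SimpleGraph VG := lex R GH

lemma GA_UC : UC GA 9 9 := R_UC.lex R_UC
lemma GB_UC : UC GB 9 6 := by
  have := top_UC.lex (bot_UC.lex R_UC)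
  exact this
lemma GH_UC : UC GH 9 15 := GA_UC.sum GB_UC
lemma G_UC : UC G 27 45 := R_UC.lex GH_UC
lemma GH_Irr : Irr GH := (R_Irr.lex R).sum ((R_Irr.lex ⊥).lex ⊤)
lemma G_Irr : Irr G := GH_Irr.lex R
lemma GA_Reg : Reg GA 40 := by
  have := R_Reg.lex R_Reg
  simp only [Nat.card_eq_fintype_card, Fintype.card_prod, Fintype.card_fin] at this
  exact this
lemma GB_Reg : Reg GB 40 := by
  have := top_Reg.lex (bot_Reg.lex R_Reg)
  simp only [Nat.card_eq_fintype_card, Fintype.card_prod, Fintype.card_fin] at this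
  exact this
lemma GH_Reg : Reg GH 40 := GA_Reg.sum GB_Reg
lemma G_Reg : Reg G 580 := by
  have := R_Reg.lex GH_Reg
  simp only [Nat.card_eq_fintype_card, Fintype.card_prod, Fintype.card_fin,
    Fintype.card_sum] at this
  exact this

lemma conn_of_common {X : Type} [Nonempty X] (K : SimpleGraph X)
    (h : ∀ x y, ∃ z, K.Adj x z ∧ K.Adj z y) : K.Connected := by
  refine ⟨fun x y => ?_⟩
  obtain ⟨z, h1, h2⟩ := h x y
  exact h1.reachable.trans h2.reachable

instance : Nonempty VG := ⟨((0, 0), Sum.inl ((0, 0), (0, 0)))⟩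

lemma G_conn : G.Connected := by
  apply conn_of_common
  rintro ⟨a, b⟩ ⟨c, d⟩
  have : ∀ a c : Fin 3 × Fin 3, ∃ z, R.Adj a z ∧ R.Adj z c := by decide
  obtain ⟨z, h1, h2⟩ := this a c
  exact ⟨(z, b), Or.inl h1, Or.inl h2⟩

lemma Gc_conn : Gᶜ.Connected := by
  apply conn_of_common
  rintro ⟨a, b⟩ ⟨c, d⟩
  have : ∀ a c : Fin 3 × Fin 3, ∃ z, (a ≠ z ∧ ¬ R.Adj a z) ∧ (z ≠ c ∧ ¬ R.Adj z c) := by decide
  obtain ⟨z, h1, h2⟩ := this a c
  refine ⟨(z, b), ?_, ?_⟩
  · rw [G, lex_compl]
    exact Or.inl ((compl_adj _ _ _).2 h1)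
  · rw [G, lex_compl]
    exact Or.inl ((compl_adj _ _ _).2 h2)

/-- an automorphism-invariant property of vertices -/
def P {X : Type} (K : SimpleGraph X) (v : X) : Prop :=
  ∃ w, w ≠ v ∧ ¬ K.Adj v w ∧
    (∃ x y, K.Adj v x ∧ ¬ K.Adj w x ∧ K.Adj v y ∧ ¬ K.Adj w y ∧ K.Adj x y) ∧
    ¬ ∃ x y z, K.Adj v x ∧ ¬ K.Adj w x ∧ K.Adj v y ∧ ¬ K.Adj w y ∧ K.Adj v z ∧ ¬ K.Adj w z ∧
      K.Adj x y ∧ K.Adj x z ∧ K.Adj y z

lemma P_iso {X : Type} {K : SimpleGraph X} (φ : K ≃g K) {v : X} (h : P K v) : P K (φ v) := by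
  obtain ⟨w, h1, h2, ⟨x, y, h3⟩, h4⟩ := h
  refine ⟨φ w, fun h => h1 (φ.injective h), by rwa [φ.map_adj_iff], ⟨φ x, φ y, ?_⟩, ?_⟩
  · simpa only [φ.map_adj_iff] using h3
  · rintro ⟨x, y, z, h5⟩
    refine h4 ⟨φ.symm x, φ.symm y, φ.symm z, ?_⟩
    have e : ∀ a b, K.Adj (φ a) b ↔ K.Adj a (φ.symm b) := by
      intro a b
      rw [← φ.map_adj_iff (v := a), φ.apply_symm_apply]
    have e' : ∀ a b, K.Adj a b ↔ K.Adj (φ.symm a) (φ.symm b) := by
      intro a b
      rw [← φ.map_adj_iff (v := φ.symm a), φ.apply_symm_apply, φ.apply_symm_apply]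
    rw [e, e, e, e, e, e, e' x y, e' x z, e' y z] at h5
    exact h5

/-- vertices `(r, inr _)` have the property -/
lemma P_B : P G ((0, 0), Sum.inr (0, (0, (0, 0)))) := by
  refine ⟨((0, 0), Sum.inr (0, (1, (0, 0)))), ?_, ?_, ⟨((0, 0), Sum.inr (0, (0, (0, 1)))),
    ((0, 0), Sum.inr (0, (0, (0, 2)))), ?_⟩, ?_⟩
  · decide
  · simp [G, GH, GB, lex_adj]
  · simp [G, GH, GB, lex_adj, R]
  · have key : ∀ x, G.Adj ((0, 0), Sum.inr (0, (0, (0, 0)))) x →
        ¬ G.Adj ((0, 0), Sum.inr (0, (1, (0, 0)))) x →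
        ∃ s, R.Adj (0, 0) s ∧ x = ((0, 0), Sum.inr (0, (0, s))) := by
      rintro ⟨r, a | ⟨i, e, s⟩⟩ h1 h2
      · rcases h1 with h1 | ⟨h1, h3⟩
        · exact absurd (Or.inl h1) h2
        · exact absurd h3 (by simp [GH])
      · rcases h1 with h1 | ⟨h1, h3⟩
        · exact absurd (Or.inl h1) h2
        · simp only at h1
          subst h1
          simp only [GH, sum_adj, GB] at h3
          rcases h3 with h3 | ⟨h3, h4⟩
          · refine absurd (Or.inr ⟨rfl, ?_⟩) h2
            simp only [GH, sum_adj, GB]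
            exact Or.inl h3
          · simp only at h3
            subst h3
            rcases h4 with h4 | ⟨h4, h5⟩
            · exact absurd h4 (by simp)
            · simp only at h4
              subst h4
              exact ⟨s, h5, rfl⟩
    rintro ⟨x, y, z, hx1, hx2, hy1, hy2, hz1, hz2, hxy, hxz, hyz⟩
    obtain ⟨s, hs, rfl⟩ := key x hx1 hx2
    obtain ⟨t, ht, rfl⟩ := key y hy1 hy2
    obtain ⟨u, hu, rfl⟩ := key z hz1 hz2
    have h1 : R.Adj s t := by simpa [G, GH, GB, lex_adj] using hxy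
    have h2 : R.Adj s u := by simpa [G, GH, GB, lex_adj] using hxz
    have h3 : R.Adj t u := by simpa [G, GH, GB, lex_adj] using hyz
    have : ∀ s t u : Fin 3 × Fin 3, R.Adj (0, 0) s → R.Adj (0, 0) t → R.Adj (0, 0) u →
      R.Adj s t → R.Adj s u → R.Adj t u → False := by decide +kernel
    exact this s t u hs ht hu h1 h2 h3


/-- a triangle inside the fibre over `z` shows `P` fails through a vertex outside -/
lemma R_out : ∀ a c : Fin 3 × Fin 3, a ≠ c → ¬ R.Adj a c → ∃ z, R.Adj a z ∧ ¬ R.Adj c z ∧ c ≠ z := by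
  decide +kernel

/-- vertices `(r, inl _)` do not have the property -/
lemma not_P_A : ¬ P G ((0, 0), Sum.inl ((0, 0), (0, 0))) := by
  rintro ⟨⟨r, w⟩, hne, hnadj, ⟨x, y, hx1, hx2, hy1, hy2, hxy⟩, hno⟩
  by_cases hr : r = (0, 0)
  · subst hr
    rcases w with ⟨p, q⟩ | b
    · by_cases hp : p = (0, 0)
      · subst hp
        -- `N(v) \ N(w)` lies in the innermost copy and is stable
        have key : ∀ x, G.Adj ((0, 0), Sum.inl ((0, 0), (0, 0))) x →
            ¬ G.Adj ((0, 0), Sum.inl ((0, 0), q)) x →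
            ∃ s, R.Adj (0, 0) s ∧ ¬ R.Adj q s ∧ x = ((0, 0), Sum.inl ((0, 0), s)) := by
          rintro ⟨r, ⟨i, s⟩ | a⟩ h1 h2
          · rcases h1 with h1 | ⟨h1, h3⟩
            · exact absurd (Or.inl h1) h2
            · simp only at h1
              subst h1
              simp only [GH, sum_adj, GA] at h3
              rcases h3 with h3 | ⟨h3, h4⟩
              · refine absurd (Or.inr ⟨rfl, ?_⟩) h2
                simp only [GH, sum_adj, GA]
                exact Or.inl h3
              · simp only at h3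
                subst h3
                refine ⟨s, h4, fun h5 => h2 (Or.inr ⟨rfl, ?_⟩), rfl⟩
                simp only [GH, sum_adj, GA]
                exact Or.inr ⟨rfl, h5⟩
          · rcases h1 with h1 | ⟨h1, h3⟩
            · exact absurd (Or.inl h1) h2
            · exact absurd h3 (by simp [GH])
        obtain ⟨s, hs1, hs2, rfl⟩ := key x hx1 hx2
        obtain ⟨t, ht1, ht2, rfl⟩ := key y hy1 hy2
        have h1 : R.Adj s t := by simpa [G, GH, GA, lex_adj] using hxy
        have h2 : ¬ R.Adj (0, 0) q := by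
          intro h
          apply hnadj
          refine Or.inr ⟨rfl, ?_⟩
          simp only [GH, sum_adj, GA]
          exact Or.inr ⟨rfl, h⟩
        have h3 : q ≠ (0, 0) := fun h => hne (by rw [h])
        have : ∀ q s t : Fin 3 × Fin 3, ¬ (q ≠ (0, 0) ∧ ¬ R.Adj (0, 0) q ∧ R.Adj (0, 0) s ∧
            ¬ R.Adj q s ∧ R.Adj (0, 0) t ∧ ¬ R.Adj q t ∧ R.Adj s t) := by decide +kernel
        exact this q s t ⟨h3, h2, hs1, hs2, ht1, ht2, h1⟩
      · have h2 : ¬ R.Adj (0, 0) p := by
          intro h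
          apply hnadj
          refine Or.inr ⟨rfl, ?_⟩
          simp only [GH, sum_adj, GA]
          exact Or.inl h
        obtain ⟨z, hz1, hz2, hz3⟩ := R_out (0, 0) p (Ne.symm hp) h2
        refine hno ⟨((0, 0), Sum.inl (z, (0, 0))), ((0, 0), Sum.inl (z, (0, 1))),
          ((0, 0), Sum.inl (z, (0, 2))), ?_⟩
        simp [G, GH, GA, lex_adj, hz1, hz2, hz3]
        decide
    · refine hno ⟨((0, 0), Sum.inl ((0, 1), (0, 0))), ((0, 0), Sum.inl ((0, 1), (0, 1))),
          ((0, 0), Sum.inl ((0, 1), (0, 2))), ?_⟩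
      simp [G, GH, GA, lex_adj]
      decide
  · have h2 : ¬ R.Adj (0, 0) r := fun h => hnadj (Or.inl h)
    obtain ⟨z, hz1, hz2, hz3⟩ := R_out (0, 0) r (Ne.symm hr) h2
    refine hno ⟨(z, Sum.inl ((0, 0), (0, 0))), (z, Sum.inl ((0, 0), (0, 1))),
          (z, Sum.inl ((0, 0), (0, 2))), ?_⟩
    simp [G, GH, GA, lex_adj, hz1, hz2, hz3]
    decide

/-- There is a finite regular CIS graph `G` such that `G` and its complement are connected,
well-covered and irreducible, but `G` is not vertex-transitive. -/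
theorem result : ∃ (V : Type) (_ : Fintype V) (G : SimpleGraph V),
    Regular G ∧ CIS G ∧ G.Connected ∧ Gᶜ.Connected ∧ WellCovered G ∧ WellCovered Gᶜ ∧
      Irreducible G ∧ Irreducible Gᶜ ∧ ¬ VertexTransitive G := by
  refine ⟨VG, inferInstance, G, ⟨580, G_Reg⟩, G_UC.cis, G_conn, Gc_conn, ?_, ?_, G_Irr.irr,
    G_Irr.irrc, ?_⟩
  · intro S T hS hT
    rw [G_UC.st S hS, G_UC.st T hT]
  · intro S T hS hT
    rw [G_UC.compl.st S hS, G_UC.compl.st T hT]
  · intro h
    obtain ⟨φ, hφ⟩ := h ((0, 0), Sum.inr (0, (0, (0, 0)))) ((0, 0), Sum.inl ((0, 0), (0, 0)))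
    apply not_P_A
    rw [← hφ]
    exact P_iso φ P_B

end Pool.Agent.Results.MP_509871_co.RegularCISNotTransitive
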